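import Pool.Agent.Helper90_PRS.Dgr

/-!
# Squad PRS, module EXI: existence by linear algebra
-/

set_option autoImplicit false

namespace Pool.Agent.PRS.H27

open MvPolynomial

/-! ### Coefficients of jet monomials -/

/-- the coefficient of a jet monomial -/
noncomputable def ct {N : ℕ} (t : J →₀ ℕ) (Q : S N) : MvPolynomial (Par N) ℚ :=
  coeff t (sumAlgEquiv ℚ J (Par N) Q)

theorem coeff_ct {N : ℕ} (t : J →₀ ℕ) (t' : Par N →₀ ℕ) (Q : S N) :
    coeff t' (ct t Q) = coeff (Finsupp.sumElim t t') Q := by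
  simp [ct, sumAlgEquiv, coeff, AddMonoidAlgebra.curryAlgEquiv, AddMonoidAlgebra.curryRingEquiv,
    AddMonoidAlgebra.curryAddEquiv]

/-- the inclusion of the parameters -/
noncomputable def ren (N : ℕ) : MvPolynomial (Par N) ℚ →ₐ[ℚ] S N := rename Sum.inr

theorem ct_ren_mul {N : ℕ} (t : J →₀ ℕ) (c : MvPolynomial (Par N) ℚ) (Q : S N) :
    ct t (ren N c * Q) = c * ct t Q := by
  unfold ct ren
  have h := AlgHom.congr_fun (sumAlgEquiv_comp_rename_inr (R := ℚ) (S₁ := J) (S₂ := Par N)) c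
  have h' : sumAlgEquiv ℚ J (Par N) (rename Sum.inr c) = C c := h
  rw [map_mul, h', coeff_C_mul]

theorem ct_sum {N : ℕ} {ι : Type*} (s : Finset ι) (t : J →₀ ℕ) (f : ι → S N) :
    ct t (∑ i ∈ s, f i) = ∑ i ∈ s, ct t (f i) := by
  unfold ct
  rw [map_sum, coeff_sum]

theorem exists_of_ct_ne {N : ℕ} {t : J →₀ ℕ} {Q : S N} (h : ct t Q ≠ 0) :
    ∃ s ∈ Q.support, ∀ j, s (Sum.inl j) = t j := by
  obtain ⟨t', ht'⟩ := MvPolynomial.ne_zero_iff.mp h
  rw [coeff_ct] at ht'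
  exact ⟨_, mem_support_iff.mpr ht', fun j => by simp⟩

theorem exists_ct_ne {N : ℕ} {Q : S N} {s : J ⊕ Par N →₀ ℕ} (h : s ∈ Q.support) :
    ∃ t : J →₀ ℕ, (∀ j, s (Sum.inl j) = t j) ∧ ct t Q ≠ 0 := by
  obtain ⟨t, ht⟩ : ∃ t, t = Finsupp.sumFinsuppAddEquivProdFinsupp s := ⟨_, rfl⟩
  have hs : s = Finsupp.sumElim t.1 t.2 := by
    rw [ht]
    exact (Finsupp.sumFinsuppAddEquivProdFinsupp.symm_apply_apply s).symm
  refine ⟨t.1, fun j => by rw [hs]; simp, fun h0 => ?_⟩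
  have h1 := coeff_ct t.1 t.2 Q
  rw [h0, coeff_zero, ← hs] at h1
  exact mem_support_iff.mp h h1.symm

theorem pow_dvd {V : Type*} (v : V) (n : ℕ) (Q : MvPolynomial V ℚ)
    (h : ∀ s ∈ Q.support, n ≤ s v) : X v ^ n ∣ Q := by
  rw [← support_sum_monomial_coeff Q]
  refine Finset.dvd_sum fun s hs => ?_
  rw [X_pow_eq_monomial, monomial_dvd_monomial]
  exact ⟨Or.inr (Finsupp.single_le_iff.mpr (h s hs)), one_dvd _⟩

theorem node_ren {N : ℕ} (i j : Fin N) (c : MvPolynomial (Par N) ℚ) :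
    node i j (ren N c) = ren N c := by
  have h : (node i j).comp (ren N) = ren N := by
    refine algHom_ext fun v => ?_
    simp [node, nodeFun, ren]
  exact AlgHom.congr_fun h c

/-! ### Degrees -/

theorem deg_ren {N : ℕ} (w : J ⊕ Par N → ℕ) (hw : ∀ q, w (Sum.inr q) = 0)
    (c : MvPolynomial (Par N) ℚ) : Deg w 0 (ren N c) := by
  classical
  intro s hs
  unfold ren at hs
  obtain ⟨t, rfl, _⟩ : ∃ t : Par N →₀ ℕ, Finsupp.mapDomain Sum.inr t = s ∧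
      coeff t c ≠ 0 := coeff_rename_ne_zero _ _ _ (mem_support_iff.mp hs)
  rw [Finsupp.sum_mapDomain_index (by simp) (by intros; ring)]
  simp [hw]

theorem deg_prod {V : Type*} {ι : Type*} (s : Finset ι) (w : V → ℕ) (n : ℕ)
    (f : ι → MvPolynomial V ℚ) (h : ∀ i ∈ s, Deg w n (f i)) :
    Deg w (s.card * n) (∏ i ∈ s, f i) := by
  classical
  induction s using Finset.induction_on with
  | empty => simpa using H90.deg_C w 0 (1 : ℚ)
  | insert a s ha ih =>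
    rw [Finset.prod_insert ha, Finset.card_insert_of_notMem ha, Nat.succ_mul, add_comm]
    exact H90.deg_mul (h a (Finset.mem_insert_self a s))
      (ih fun i hi => h i (Finset.mem_insert_of_mem hi))

theorem deg_ff {N : ℕ} (w : J ⊕ Par N → ℕ) (c : Fin 2) (n : ℕ) (h0 : w (Sum.inl (c, 0)) ≤ n)
    (hw : ∀ q, w (Sum.inr q) = 0) : Deg w (N * n) (ff N c) := by
  have h := deg_prod (Finset.univ : Finset (Fin N)) w n (fun i => jv N c 0 - pa c i) ?_
  · rw [Finset.card_univ, Fintype.card_fin] at h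
    exact h
  · intro i _
    rw [sub_eq_add_neg]
    refine H90.deg_add (H90.deg_mono h0 (H90.deg_X w _)) ?_
    have h1 := H90.deg_mul (H90.deg_C w 0 (-1 : ℚ)) (H90.deg_X (R := ℚ) w (Sum.inr (c, i)))
    rw [hw, map_neg, map_one, neg_mul, one_mul] at h1
    exact H90.deg_mono (Nat.zero_le _) h1

/-! ### Nonvanishing -/

/-- separate the derivatives, the coordinates and the parameters -/
noncomputable def psi (N : ℕ) :
    S N →ₐ[ℚ] MvPolynomial (Fin 4) (MvPolynomial (Fin 2) (MvPolynomial (Par N) ℚ)) :=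
  aeval (Sum.elim (fun q => (![![C (X 0), X 0, X 1], ![C (X 1), X 2, X 3]] q.1) q.2)
    (fun q => C (C (X q))))

theorem psi_ren {N : ℕ} (c : MvPolynomial (Par N) ℚ) : psi N (ren N c) = C (C c) := by
  have h : (psi N).comp (ren N) = (IsScalarTower.toAlgHom ℚ (MvPolynomial (Fin 2)
      (MvPolynomial (Par N) ℚ)) (MvPolynomial (Fin 4) (MvPolynomial (Fin 2)
      (MvPolynomial (Par N) ℚ)))).comp (IsScalarTower.toAlgHom ℚ (MvPolynomial (Par N) ℚ)
      (MvPolynomial (Fin 2) (MvPolynomial (Par N) ℚ))) := by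
    refine algHom_ext fun v => ?_
    simp [psi, ren, MvPolynomial.algebraMap_eq]
  exact AlgHom.congr_fun h c

/-- the product of the `X c - a (c, i)` -/
noncomputable def gg (N : ℕ) (c : Fin 2) : MvPolynomial (Fin 2) (MvPolynomial (Par N) ℚ) :=
  ∏ i : Fin N, (X c - C (X (c, i)))

theorem gg_ne (N : ℕ) (c : Fin 2) : gg N c ≠ 0 := by
  unfold gg
  rw [Finset.prod_ne_zero_iff]
  intro i _ h
  have h1 := congrArg (coeff (Finsupp.single c 1)) h
  rw [coeff_sub, coeff_X_same, coeff_C, if_neg, coeff_zero, sub_zero] at h1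
  · exact one_ne_zero h1
  · intro h2
    have := congrArg (fun f => f c) h2
    simp at this

theorem psi_ff (N : ℕ) (c : Fin 2) : psi N (ff N c) = C (gg N c) := by
  unfold ff gg
  rw [map_prod, map_prod]
  refine Finset.prod_congr rfl fun i _ => ?_
  rw [map_sub, map_sub]
  fin_cases c <;> simp [psi, jv, pa]

/-- the exponent of the derivatives -/
noncomputable def ex4 (q : ℕ × ℕ × ℕ × ℕ) : Fin 4 →₀ ℕ :=
  Finsupp.single 0 q.1 + Finsupp.single 1 q.2.1 + Finsupp.single 2 q.2.2.1 +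
    Finsupp.single 3 q.2.2.2

theorem ex4_inj {q q' : ℕ × ℕ × ℕ × ℕ} (h : ex4 q = ex4 q') : q = q' := by
  unfold ex4 at h
  have h0 := congrArg (fun f => f 0) h
  have h1 := congrArg (fun f => f 1) h
  have h2 := congrArg (fun f => f 2) h
  have h3 := congrArg (fun f => f 3) h
  simp at h0 h1 h2 h3
  refine Prod.ext h0 (Prod.ext h1 (Prod.ext h2 h3))

/-- the exponent of the coordinates -/
noncomputable def ex2 (p : ℕ × ℕ) : Fin 2 →₀ ℕ := Finsupp.single 0 p.1 + Finsupp.single 1 p.2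

theorem ex2_inj {p p' : ℕ × ℕ} (h : ex2 p = ex2 p') : p = p' := by
  unfold ex2 at h
  have h0 := congrArg (fun f => f 0) h
  have h1 := congrArg (fun f => f 1) h
  simp at h0 h1
  exact Prod.ext h0 h1

theorem psi_blk (N m : ℕ) (q : ℕ × ℕ × ℕ × ℕ) (e f : ℕ) : psi N (blk N m q e f) =
    monomial (ex4 q) (monomial (ex2 (e, f)) 1 *
      (gg N 0 ^ (m - q.1 - q.2.1) * gg N 1 ^ (m - q.2.2.1 - q.2.2.2))) := by
  have h1 : (monomial (ex4 q) (monomial (ex2 (e, f)) 1 *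
      (gg N 0 ^ (m - q.1 - q.2.1) * gg N 1 ^ (m - q.2.2.1 - q.2.2.2))) :
      MvPolynomial (Fin 4) (MvPolynomial (Fin 2) (MvPolynomial (Par N) ℚ))) =
      C (X 0 ^ e * X 1 ^ f * (gg N 0 ^ (m - q.1 - q.2.1) * gg N 1 ^ (m - q.2.2.1 - q.2.2.2))) *
        (X 0 ^ q.1 * X 1 ^ q.2.1 * X 2 ^ q.2.2.1 * X 3 ^ q.2.2.2) := by
    unfold ex4 ex2
    simp only [X_pow_eq_monomial, monomial_mul, C_mul_monomial, mul_one]
  rw [h1]
  unfold blk
  simp only [map_mul, map_pow, psi_ff]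
  have e1 : psi N (jv N 0 0) = C (X 0) := by simp [psi, jv]
  have e2 : psi N (jv N 1 0) = C (X 1) := by simp [psi, jv]
  have e3 : psi N (jv N 0 1) = X 0 := by simp [psi, jv]
  have e4 : psi N (jv N 0 2) = X 1 := by simp [psi, jv]
  have e5 : psi N (jv N 1 1) = X 2 := by simp [psi, jv]
  have e6 : psi N (jv N 1 2) = X 3 := by simp [psi, jv]
  rw [e1, e2, e3, e4, e5, e6]
  ring

theorem ne_zero_of_coeff {N m : ℕ} {U : Type*} [Fintype U] (g : U → (ℕ × ℕ × ℕ × ℕ) × (ℕ × ℕ))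
    (hg : Function.Injective g) (c : U → MvPolynomial (Par N) ℚ) (hc : c ≠ 0) :
    ∑ u, ren N (c u) * blk N m (g u).1 (g u).2.1 (g u).2.2 ≠ 0 := by
  classical
  intro h0
  apply hc
  funext u₀
  have h1 := congrArg (psi N) h0
  rw [map_sum, map_zero] at h1
  have h2 := congrArg (coeff (ex4 (g u₀).1)) h1
  rw [coeff_sum, coeff_zero] at h2
  have h3 : ∀ u : U, coeff (ex4 (g u₀).1)
      (psi N (ren N (c u) * blk N m (g u).1 (g u).2.1 (g u).2.2)) =
      (if (g u).1 = (g u₀).1 then monomial (ex2 (g u).2) (c u) else 0) *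
        (gg N 0 ^ (m - (g u₀).1.1 - (g u₀).1.2.1) *
          gg N 1 ^ (m - (g u₀).1.2.2.1 - (g u₀).1.2.2.2)) := by
    intro u
    rw [map_mul, psi_ren, psi_blk, C_mul_monomial, coeff_monomial]
    by_cases h : (g u).1 = (g u₀).1
    · rw [if_pos h, if_pos (by rw [h]), h, ← mul_assoc, C_mul_monomial, mul_one]
    · rw [if_neg h, if_neg (fun h' => h (ex4_inj h')), zero_mul]
  rw [Finset.sum_congr rfl (fun u _ => h3 u), ← Finset.sum_mul] at h2
  have h4 : (gg N 0 ^ (m - (g u₀).1.1 - (g u₀).1.2.1) *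
          gg N 1 ^ (m - (g u₀).1.2.2.1 - (g u₀).1.2.2.2)) ≠ 0 :=
    mul_ne_zero (pow_ne_zero _ (gg_ne N 0)) (pow_ne_zero _ (gg_ne N 1))
  have h5 := (mul_eq_zero.mp h2).resolve_right h4
  have h6 := congrArg (coeff (ex2 (g u₀).2)) h5
  rw [coeff_sum, coeff_zero, Finset.sum_eq_single u₀] at h6
  · rw [if_pos rfl, coeff_monomial, if_pos rfl] at h6
    exact h6
  · intro u _ hu
    by_cases h : (g u).1 = (g u₀).1
    · rw [if_pos h, coeff_monomial, if_neg]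
      intro h'
      exact hu (hg (Prod.ext h (ex2_inj h')))
    · rw [if_neg h, coeff_zero]
  · intro h
    exact absurd (Finset.mem_univ _) h

/-! ### The linear system -/

/-- the unknowns -/
def Un (m N : ℕ) : Finset (Σ _ : ℕ × ℕ × ℕ × ℕ, ℕ × ℕ) :=
  ((mons m).filter (fun q => 0 < q.1 + q.2.1 ∧ 0 < q.2.2.1 + q.2.2.2)).sigma fun q =>
    Finset.range (N * (q.1 + q.2.1) - 13 * m + 1) ×ˢ
      Finset.range (N * (q.2.2.1 + q.2.2.2) - 13 * m + 1)

/-- the equations at each node -/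
def Eq0 (m : ℕ) : Finset (Σ _ : ℕ × ℕ × ℕ × ℕ, Σ _ : ℕ, ℕ) :=
  (mons m).sigma fun r => (Finset.range (r.1 + r.2.1)).sigma fun L => Finset.range (L + 1)

theorem card_Un (m N : ℕ) : (Un m N).card =
    ∑ q ∈ (mons m).filter (fun q => 0 < q.1 + q.2.1 ∧ 0 < q.2.2.1 + q.2.2.2),
        (N * (q.1 + q.2.1) - 13 * m + 1) * (N * (q.2.2.1 + q.2.2.2) - 13 * m + 1) := by
  unfold Un
  rw [Finset.card_sigma]
  refine Finset.sum_congr rfl fun q _ => ?_
  rw [Finset.card_product, Finset.card_range, Finset.card_range]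

theorem card_Eq0 (m : ℕ) :
    (Eq0 m).card = ∑ r ∈ mons m, ∑ L ∈ Finset.range (r.1 + r.2.1), (L + 1) := by
  unfold Eq0
  rw [Finset.card_sigma]
  refine Finset.sum_congr rfl fun r _ => ?_
  rw [Finset.card_sigma]
  refine Finset.sum_congr rfl fun L _ => ?_
  rw [Finset.card_range]

theorem mons_iff {m : ℕ} {q : ℕ × ℕ × ℕ × ℕ} (h : q ∈ mons m) :
    q.1 + 2 * q.2.1 + q.2.2.1 + 2 * q.2.2.2 = m := by
  unfold mons at h
  exact (Finset.mem_filter.mp h).2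

theorem of_mem_Un {m N : ℕ} {u : Σ _ : ℕ × ℕ × ℕ × ℕ, ℕ × ℕ} (h : u ∈ Un m N) :
    u.1 ∈ mons m ∧ (0 < u.1.1 + u.1.2.1 ∧ 0 < u.1.2.2.1 + u.1.2.2.2) ∧
      u.2.1 < N * (u.1.1 + u.1.2.1) - 13 * m + 1 ∧
      u.2.2 < N * (u.1.2.2.1 + u.1.2.2.2) - 13 * m + 1 := by
  unfold Un at h
  rw [Finset.mem_sigma, Finset.mem_filter, Finset.mem_product, Finset.mem_range,
    Finset.mem_range] at h
  exact ⟨h.1.1, h.1.2, h.2.1, h.2.2⟩

theorem mem_Eq0 {m : ℕ} {r : ℕ × ℕ × ℕ × ℕ} {L B : ℕ} (hr : r ∈ mons m) (hL : L < r.1 + r.2.1)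
    (hB : B ≤ L) : (⟨r, ⟨L, B⟩⟩ : Σ _ : ℕ × ℕ × ℕ × ℕ, Σ _ : ℕ, ℕ) ∈ Eq0 m := by
  unfold Eq0
  rw [Finset.mem_sigma, Finset.mem_sigma, Finset.mem_range, Finset.mem_range]
  exact ⟨hr, hL, Nat.lt_succ_of_le hB⟩

theorem exists_ker {R : Type*} [CommRing R] [Nontrivial R] {E U : Type*} [Fintype E] [Fintype U]
    (Mx : Matrix E U R) (h : Fintype.card E < Fintype.card U) :
    ∃ c : U → R, c ≠ 0 ∧ Mx.mulVec c = 0 := by
  by_contra hcon
  have hinj : Function.Injective Mx.mulVecLin := by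
    rw [← LinearMap.ker_eq_bot, LinearMap.ker_eq_bot']
    intro c hc
    by_contra h0
    exact hcon ⟨c, h0, hc⟩
  exact absurd h (not_lt.mpr (card_le_of_injective R Mx.mulVecLin hinj))

/-- the jet monomial attached to an equation -/
noncomputable def tE (m : ℕ) (r : ℕ × ℕ × ℕ × ℕ) (L B : ℕ) : J →₀ ℕ :=
  Finsupp.equivFunOnFinite.symm (fun v => (![![2 * m + L - r.1 - r.2.1, r.1, r.2.1],
    ![m + B - r.2.2.1 - r.2.2.2, r.2.2.1, r.2.2.2]] v.1) v.2)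

theorem eq_tE {m : ℕ} {t : J →₀ ℕ} {r : ℕ × ℕ × ℕ × ℕ} {L B : ℕ} (h1 : t (0, 1) = r.1)
    (h2 : t (0, 2) = r.2.1) (h3 : t (1, 1) = r.2.2.1) (h4 : t (1, 2) = r.2.2.2)
    (h5 : t (0, 0) + r.1 + r.2.1 = 2 * m + L) (h6 : t (1, 0) + r.2.2.1 + r.2.2.2 = m + B) :
    t = tE m r L B := by
  refine Finsupp.ext fun v => ?_
  unfold tE
  rw [Finsupp.equivFunOnFinite_symm_apply_apply]
  obtain ⟨c, l⟩ := v
  fin_cases c <;> fin_cases l
  · change t (0, 0) = 2 * m + L - r.1 - r.2.1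
    omega
  · exact h1
  · exact h2
  · change t (1, 0) = m + B - r.2.2.1 - r.2.2.2
    omega
  · exact h3
  · exact h4

theorem num_bound {N m e f i1 i2 : ℕ} (hN : 13 * m ≤ N) (hk : 0 < i1 + i2) (hm : i1 + 2 * i2 ≤ m)
    (he : e < N * (i1 + i2) - 13 * m + 1) (hf : f = (m - i1 - i2) * (N * 1)) :
    e + i1 + i2 + f ≤ (N - 12) * m := by
  have h1 : N * 1 ≤ N * (i1 + i2) := Nat.mul_le_mul_left N hk
  obtain ⟨d, hd⟩ : ∃ d, m = i1 + i2 + d := ⟨m - i1 - i2, by omega⟩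
  have h2 : m - i1 - i2 = d := by omega
  have h3 : f = N * d := by rw [hf, h2, mul_one, mul_comm]
  have h4 : N * m = N * (i1 + i2) + N * d := by rw [hd, mul_add]
  rw [Nat.sub_mul]
  omega

theorem exi_aux (nds : NdsStmt) {N m : ℕ} (hN : 13 * m ≤ N) {UT ET : Type} [Fintype UT]
    [Fintype ET] (gu : UT → (ℕ × ℕ × ℕ × ℕ) × (ℕ × ℕ)) (ge : ET → (ℕ × ℕ × ℕ × ℕ) × (ℕ × ℕ))
    (hgu : Function.Injective gu)
    (hU : ∀ u, (gu u).1 ∈ mons m ∧ (0 < (gu u).1.1 + (gu u).1.2.1 ∧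
      0 < (gu u).1.2.2.1 + (gu u).1.2.2.2) ∧
      (gu u).2.1 < N * ((gu u).1.1 + (gu u).1.2.1) - 13 * m + 1 ∧
      (gu u).2.2 < N * ((gu u).1.2.2.1 + (gu u).1.2.2.2) - 13 * m + 1)
    (hE : ∀ (r : ℕ × ℕ × ℕ × ℕ) (L B : ℕ), r ∈ mons m → L < r.1 + r.2.1 → B ≤ L →
      ∃ e, ge e = (r, (L, B)))
    (hcard : Fintype.card ((Fin N × Fin N) × ET) < Fintype.card UT) :
    ∃ P : S N, P ≠ 0 ∧ Adm m ((N - 12) * m) P := by
  classical
  obtain ⟨Mx, hMx⟩ : ∃ Mx : Matrix ((Fin N × Fin N) × ET) UT (MvPolynomial (Par N) ℚ),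
      Mx = fun e u => ct (tE m (ge e.2).1 (ge e.2).2.1 (ge e.2).2.2)
        (node e.1.1 e.1.2 (blk N m (gu u).1 (gu u).2.1 (gu u).2.2)) := ⟨_, rfl⟩
  obtain ⟨c, hc0, hc⟩ := exists_ker Mx hcard
  obtain ⟨P, hP⟩ : ∃ P : S N, P = ∑ u : UT, ren N (c u) *
      blk N m (gu u).1 (gu u).2.1 (gu u).2.2 := ⟨_, rfl⟩
  have hdeg : ∀ (w : J ⊕ Par N → ℕ) (n0 n1 : ℕ), (∀ q, w (Sum.inr q) = 0) →
      w (Sum.inl (0, 0)) ≤ n0 → w (Sum.inl (1, 0)) ≤ n1 → ∀ u : UT,
      Deg w (0 + ((gu u).2.1 * n0 + (gu u).2.2 * n1 + ((gu u).1.1 * w (Sum.inl (0, 1)) +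
        (gu u).1.2.1 * w (Sum.inl (0, 2)) + (m - (gu u).1.1 - (gu u).1.2.1) * (N * n0)) +
        ((gu u).1.2.2.1 * w (Sum.inl (1, 1)) + (gu u).1.2.2.2 * w (Sum.inl (1, 2)) +
        (m - (gu u).1.2.2.1 - (gu u).1.2.2.2) * (N * n1))))
        (ren N (c u) * blk N m (gu u).1 (gu u).2.1 (gu u).2.2) := by
    intro w n0 n1 hw h0 h1 u
    have a0 := deg_ren w hw (c u)
    have a1 := H90.deg_pow (H90.deg_mono h0 (H90.deg_X (R := ℚ) w (Sum.inl (0, 0)))) (gu u).2.1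
    have a2 := H90.deg_pow (H90.deg_mono h1 (H90.deg_X (R := ℚ) w (Sum.inl (1, 0)))) (gu u).2.2
    have a3 := H90.deg_pow (H90.deg_X (R := ℚ) w (Sum.inl (0, 1))) (gu u).1.1
    have a4 := H90.deg_pow (H90.deg_X (R := ℚ) w (Sum.inl (0, 2))) (gu u).1.2.1
    have a5 := H90.deg_pow (H90.deg_X (R := ℚ) w (Sum.inl (1, 1))) (gu u).1.2.2.1
    have a6 := H90.deg_pow (H90.deg_X (R := ℚ) w (Sum.inl (1, 2))) (gu u).1.2.2.2
    have a7 := H90.deg_pow (deg_ff w 0 n0 h0 hw) (m - (gu u).1.1 - (gu u).1.2.1)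
    have a8 := H90.deg_pow (deg_ff w 1 n1 h1 hw) (m - (gu u).1.2.2.1 - (gu u).1.2.2.2)
    exact H90.deg_mul a0 (H90.deg_mul (H90.deg_mul (H90.deg_mul a1 a2)
      (H90.deg_mul (H90.deg_mul a3 a4) a7)) (H90.deg_mul (H90.deg_mul a5 a6) a8))
  refine ⟨P, ?_, ?_, ?_, ?_⟩
  · rw [hP]
    exact ne_zero_of_coeff gu hgu c hc0
  · intro i j
    refine pow_dvd _ _ _ fun s hs => ?_
    by_contra hlt
    rw [not_le] at hlt
    obtain ⟨t, ht, hct⟩ := exists_ct_ne hs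
    apply hct
    have h1 : ct t (node i j P) = ∑ u : UT, c u *
        ct t (node i j (blk N m (gu u).1 (gu u).2.1 (gu u).2.2)) := by
      rw [hP, map_sum, ct_sum]
      refine Finset.sum_congr rfl fun u _ => ?_
      rw [map_mul, node_ren, ct_ren_mul]
    by_cases hall : ∀ u : UT, ct t (node i j (blk N m (gu u).1 (gu u).2.1 (gu u).2.2)) = 0
    · rw [h1]
      exact Finset.sum_eq_zero fun u _ => by rw [hall u, mul_zero]
    · rw [not_forall] at hall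
      obtain ⟨u, hu⟩ := hall
      obtain ⟨s', hs', hst⟩ := exists_of_ct_ne hu
      obtain ⟨r, hr, L, B, hBL, g1, g2, g3, g4, g5, g6⟩ :=
        nds N m i j (gu u).1 (gu u).2.1 (gu u).2.2 (hU u).1 s' hs'
      rw [hst] at g1 g2 g3 g4 g5 g6
      have ht0 : t (0, 0) < 2 * m := by
        rw [← ht]
        exact hlt
      have htE : t = tE m r L B := eq_tE g1 g2 g3 g4 g5 g6
      have hL : L < r.1 + r.2.1 := by omega
      obtain ⟨e, he⟩ := hE r L B hr hL hBL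
      have h2 := congrFun hc ((i, j), e)
      rw [Matrix.mulVec, dotProduct, Pi.zero_apply] at h2
      rw [h1, ← h2, hMx]
      refine Finset.sum_congr rfl fun u _ => ?_
      simp only [he]
      rw [mul_comm, htE]
  · intro d
    rw [hP]
    refine H90.deg_sum _ _ fun u _ => ?_
    obtain ⟨hm, ⟨hk1, hk2⟩, he, hf⟩ := hU u
    have hm' := mons_iff hm
    have hd0 : ∀ q, dw N d (Sum.inr q) = 0 := fun q => rfl
    fin_cases d
    · refine H90.deg_mono ?_ (hdeg (dw N 0) 1 0 hd0 le_rfl le_rfl u)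
      have h1 : dw N 0 (Sum.inl (0, 1)) = 1 := rfl
      have h2 : dw N 0 (Sum.inl (0, 2)) = 1 := rfl
      have h3 : dw N 0 (Sum.inl (1, 1)) = 0 := rfl
      have h4 : dw N 0 (Sum.inl (1, 2)) = 0 := rfl
      rw [h1, h2, h3, h4]
      simp only [mul_zero, zero_add, add_zero]
      have := num_bound hN hk1 (by omega) he rfl
      omega
    · refine H90.deg_mono ?_ (hdeg (dw N 1) 0 1 hd0 le_rfl le_rfl u)
      have h1 : dw N 1 (Sum.inl (0, 1)) = 0 := rfl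
      have h2 : dw N 1 (Sum.inl (0, 2)) = 0 := rfl
      have h3 : dw N 1 (Sum.inl (1, 1)) = 1 := rfl
      have h4 : dw N 1 (Sum.inl (1, 2)) = 1 := rfl
      rw [h1, h2, h3, h4]
      simp only [mul_zero, zero_add, add_zero]
      have := num_bound hN hk2 (by omega) hf rfl
      omega
  · rw [hP]
    refine H90.deg_sum _ _ fun u _ => ?_
    have hm' := mons_iff (hU u).1
    refine H90.deg_mono ?_ (hdeg (ww N) 0 0 (fun q => rfl) le_rfl le_rfl u)
    have h1 : ww N (Sum.inl (0, 1)) = 1 := rfl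
    have h2 : ww N (Sum.inl (0, 2)) = 2 := rfl
    have h3 : ww N (Sum.inl (1, 1)) = 1 := rfl
    have h4 : ww N (Sum.inl (1, 2)) = 2 := rfl
    rw [h1, h2, h3, h4]
    simp only [mul_zero, zero_add, add_zero]
    omega

/-- EXI -/
theorem exi (nds : NdsStmt) (num : NumStmt) : ExiStmt := by
  obtain ⟨m, hm⟩ : ∃ m, m = 21 := ⟨_, rfl⟩
  unfold NumStmt at num
  rw [← hm] at num
  obtain ⟨N₀, hN₀, hnum⟩ := num
  refine ⟨m, max N₀ (13 * m), by omega, le_max_of_le_left hN₀, fun N hN => ?_⟩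
  have hN1 : N₀ ≤ N := (le_max_left _ _).trans hN
  have hN2 : 13 * m ≤ N := (le_max_right _ _).trans hN
  refine exi_aux nds hN2 (UT := Un m N) (ET := Eq0 m) (fun u => (u.1.1, u.1.2))
    (fun e => (e.1.1, (e.1.2.1, e.1.2.2))) ?_ ?_ ?_ ?_
  · intro u u' h
    have h1 := congrArg Prod.fst h
    have h2 := congrArg Prod.snd h
    simp only at h1 h2
    apply Subtype.ext
    exact Sigma.ext h1 (heq_of_eq h2)
  · rintro ⟨u, hu⟩
    exact of_mem_Un hu
  · intro r L B hr hL hB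
    exact ⟨⟨_, mem_Eq0 hr hL hB⟩, rfl⟩
  · rw [Fintype.card_prod, Fintype.card_prod, Fintype.card_coe, Fintype.card_coe, Fintype.card_fin,
      card_Un, card_Eq0, ← pow_two]
    exact hnum N hN1

end Pool.Agent.PRS.H27
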